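import Pool.Agent.V5helper99.DC.Defs

/-!
# Project DC (helper99): job J10, the isometries of the demicube
-/

namespace DC99

open scoped ENNReal

/-- the sign change in one coordinate -/
noncomputable def J10_sgn (b : Prop) [Decidable b] : ℝ ≃ₗᵢ[ℝ] ℝ :=
  if b then LinearIsometryEquiv.refl ℝ ℝ else LinearIsometryEquiv.neg ℝ

lemma J10_sgn_apply (b : Prop) [Decidable b] (x : ℝ) : J10_sgn b x = if b then x else -x := by
  unfold J10_sgn
  split_ifs <;> simp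

theorem t_J10 {n : ℕ} (τ : Equiv.Perm (Fin n)) (V V' : Finset (Fin n)) :
    ∃ T : E n ≃ᵃⁱ[ℝ] E n, ∀ A : Finset (Fin n),
      T (pt A) = pt (symmDiff ((symmDiff A V).map τ.toEmbedding) V') := by
  classical
  let e : Fin n → (ℝ ≃ₗᵢ[ℝ] ℝ) := fun i => J10_sgn (τ.symm i ∈ V ↔ i ∈ V')
  refine ⟨((LinearIsometryEquiv.piLpCongrLeft 2 ℝ ℝ τ).trans
    (LinearIsometryEquiv.piLpCongrRight 2 e)).toAffineIsometryEquiv, fun A => ?_⟩
  ext i
  have h1 : (((LinearIsometryEquiv.piLpCongrLeft 2 ℝ ℝ τ).trans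
    (LinearIsometryEquiv.piLpCongrRight 2 e)).toAffineIsometryEquiv (pt A)) i =
      e i ((pt A) (τ.symm i)) := rfl
  rw [h1]
  change J10_sgn (τ.symm i ∈ V ↔ i ∈ V') (if τ.symm i ∈ A then (-1 : ℝ) else 1) =
    if i ∈ symmDiff ((symmDiff A V).map τ.toEmbedding) V' then (-1 : ℝ) else 1
  rw [J10_sgn_apply]
  simp only [Finset.mem_symmDiff, Finset.mem_map_equiv]
  by_cases hA : τ.symm i ∈ A <;> by_cases hV : τ.symm i ∈ V <;> by_cases hV' : i ∈ V' <;>
    simp [hA, hV, hV']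

end DC99
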